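import Pool.Agent.Helper61.BT.Goals
import Pool.Agent.Helper58.VF.APP

/-!
# Project BT: infinitely many generators in a coset of a finitely generated subgroup
-/

set_option autoImplicit false

namespace Pool.Agent.Helper76.BT

open Pool.Agent.Helper27.VF Pool.Agent.Helper38.VF Pool.Agent.Helper61.BT Pool.Agent.Helper58.VF Filter

universe u

variable {Γ : Type u} [Group Γ]

/-- The set `Δ P`. -/
def WW (Δ : Subgroup Γ) (P : Set Γ) : Set Γ := {x | ∃ δ : Γ, δ ∈ Δ ∧ δ⁻¹ * x ∈ P}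

theorem mem_WW {Δ : Subgroup Γ} {P : Set Γ} {δ x : Γ} (hδ : δ ∈ Δ) (hx : x ∈ P) :
    δ * x ∈ WW Δ P := ⟨δ, hδ, by rwa [inv_mul_cancel_left]⟩

theorem mul_WW {Δ : Subgroup Γ} {P : Set Γ} {δ x : Γ} (hδ : δ ∈ Δ) (hx : x ∈ WW Δ P) :
    δ * x ∈ WW Δ P := by
  obtain ⟨ε, hε, hx⟩ := hx
  refine ⟨δ * ε, Δ.mul_mem hδ hε, ?_⟩
  have : (δ * ε)⁻¹ * (δ * x) = ε⁻¹ * x := by group
  rwa [this]

/-- `Δ` acts on `Δ P`. -/
@[reducible] def act (Δ : Subgroup Γ) (P : Set Γ) : MulAction Δ (WW Δ P) where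
  smul a x := ⟨(a : Γ) * (x : Γ), mul_WW a.2 x.2⟩
  one_smul x := Subtype.ext (one_mul (x : Γ))
  mul_smul a b x := Subtype.ext (mul_assoc (a : Γ) (b : Γ) (x : Γ))

/-- The locally finite graph. -/
def H0 (S : Set Γ) (Δ : Subgroup Γ) (P : Set Γ) : SimpleGraph (WW Δ P) where
  Adj x y := (cay S).Adj (x : Γ) (y : Γ) ∧ ∃ δ : Γ, δ ∈ Δ ∧ δ⁻¹ * (x : Γ) ∈ P ∧ δ⁻¹ * (y : Γ) ∈ P
  symm := ⟨fun _ _ h => ⟨h.1.symm, by
    obtain ⟨δ, h1, h2, h3⟩ := h.2
    exact ⟨δ, h1, h3, h2⟩⟩⟩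
  loopless := ⟨fun _ h => h.1.ne rfl⟩

/-- two elements of `Δ P` which are joined -/
def Rch (S : Set Γ) (Δ : Subgroup Γ) (P : Set Γ) (x y : Γ) : Prop :=
  ∃ (hx : x ∈ WW Δ P) (hy : y ∈ WW Δ P), (H0 S Δ P).Reachable ⟨x, hx⟩ ⟨y, hy⟩

theorem Rch.symm {S : Set Γ} {Δ : Subgroup Γ} {P : Set Γ} {x y : Γ} (h : Rch S Δ P x y) :
    Rch S Δ P y x := by
  obtain ⟨hx, hy, h⟩ := h
  exact ⟨hy, hx, h.symm⟩

theorem Rch.trans {S : Set Γ} {Δ : Subgroup Γ} {P : Set Γ} {x y z : Γ} (h : Rch S Δ P x y)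
    (h' : Rch S Δ P y z) : Rch S Δ P x z := by
  obtain ⟨hx, hy, h⟩ := h
  obtain ⟨hy', hz, h'⟩ := h'
  exact ⟨hx, hz, h.trans h'⟩

theorem walk_reach {S : Set Γ} {Δ : Subgroup Γ} {P : Set Γ} {a b : Γ} (q : (cay S).Walk a b) :
    (∀ v ∈ q.support, v ∈ P) → ∀ ε ∈ Δ, Rch S Δ P (ε * a) (ε * b) := by
  induction q with
  | nil =>
    intro h ε hε
    have h1 := h _ (SimpleGraph.Walk.start_mem_support _)
    exact ⟨mem_WW hε h1, mem_WW hε h1, SimpleGraph.Reachable.refl _⟩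
  | @cons a c b hac q ih =>
    intro h ε hε
    have ha : a ∈ P := h _ (SimpleGraph.Walk.start_mem_support _)
    have hq : ∀ v ∈ q.support, v ∈ P := fun v hv => h v (by
      rw [SimpleGraph.Walk.support_cons]
      exact List.mem_cons_of_mem _ hv)
    have hc : c ∈ P := hq _ (SimpleGraph.Walk.start_mem_support _)
    refine Rch.trans ⟨mem_WW hε ha, mem_WW hε hc, SimpleGraph.Adj.reachable ?_⟩ (ih hq ε hε)
    refine ⟨cay_mul ε hac, ε, hε, ?_, ?_⟩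
    · simpa using ha
    · simpa using hc

/-- The setting: a finitely generated subgroup `Δ` such that infinitely many elements of `S` are in
the coset `Δ f`. -/
theorem setting_sub (S : Set Γ) (hS : Subgroup.closure S = ⊤) (h1 : (1 : Γ) ∉ S) (Δ : Subgroup Γ)
    (hΔ : Group.FG Δ) (f : Γ) (hinf : {s | s ∈ S ∧ s * f⁻¹ ∈ Δ}.Infinite) :
    ∃ (P : Set Γ) (w : WW Δ P) (p : Ultrafilter (WW Δ P)),
      letI := act Δ P
      Stg Δ ((cay S).comap (Subtype.val : WW Δ P → Γ)) (H0 S Δ P) w p := by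
  classical
  obtain ⟨n, T, -, hT⟩ := Group.fg_iff'.1 hΔ
  have hq : ∀ g : Γ, Nonempty ((cay S).Walk 1 g) := fun g => (cay_conn hS).preconnected 1 g
  let q : ∀ g : Γ, (cay S).Walk 1 g := fun g => (hq g).some
  let D : Finset Γ := insert f (T.image Subtype.val)
  let P : Set Γ := ⋃ g ∈ D, {v | v ∈ (q g).support}
  have hPf : P.Finite := Set.Finite.biUnion D.finite_toSet fun g _ => (q g).support.finite_toSet
  have hfD : f ∈ D := Finset.mem_insert_self _ _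
  have hP : ∀ g ∈ D, ∀ v ∈ (q g).support, v ∈ P := fun g hg v hv =>
    Set.mem_biUnion (x := g) hg hv
  have h1P : (1 : Γ) ∈ P := hP f hfD _ (SimpleGraph.Walk.start_mem_support _)
  have hfP : f ∈ P := hP f hfD _ (SimpleGraph.Walk.end_mem_support _)
  have hPr : ∀ v ∈ P, ∀ ε ∈ Δ, Rch S Δ P ε (ε * v) := by
    intro v hv ε hε
    obtain ⟨g, hg, hv⟩ := Set.mem_iUnion₂.1 hv
    have h2 := walk_reach ((q g).takeUntil v hv) (fun u hu => hP g hg u
      ((q g).support_takeUntil_subset_support hv hu)) ε hε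
    rwa [mul_one] at h2
  have hΔr : ∀ δ : Δ, ∀ ε ∈ Δ, Rch S Δ P ε (ε * (δ : Γ)) := by
    intro δ
    have hδ : δ ∈ Subgroup.closure (T : Set Δ) := by rw [hT]; exact Subgroup.mem_top _
    induction hδ using Subgroup.closure_induction with
    | mem t ht =>
      intro ε hε
      refine hPr _ (hP (t : Γ) ?_ _ (SimpleGraph.Walk.end_mem_support _)) ε hε
      exact Finset.mem_insert_of_mem (Finset.mem_image_of_mem _ ht)
    | one =>
      intro ε hε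
      have h2 := hPr 1 h1P ε hε
      simpa using h2
    | mul a b _ _ ha hb =>
      intro ε hε
      have h2 := (ha ε hε).trans (hb _ (Δ.mul_mem hε a.2))
      rw [mul_assoc] at h2
      exact h2
    | inv a _ ha =>
      intro ε hε
      have h2 := (ha _ (Δ.mul_mem hε (Δ.inv_mem a.2))).symm
      rw [inv_mul_cancel_right] at h2
      exact h2
  have h1W : (1 : Γ) ∈ WW Δ P := ⟨1, Δ.one_mem, by simpa using h1P⟩
  have hall : ∀ x : WW Δ P, (H0 S Δ P).Reachable ⟨1, h1W⟩ x := by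
    rintro ⟨x, δ, hδ, hx⟩
    have h2 := hΔr ⟨δ, hδ⟩ 1 Δ.one_mem
    have h3 := hPr _ hx δ hδ
    rw [one_mul] at h2
    rw [mul_inv_cancel_left] at h3
    obtain ⟨_, _, h4⟩ := h2.trans h3
    exact h4
  let N : Set (WW Δ P) := {x | (x : Γ) ∈ S ∧ (x : Γ) * f⁻¹ ∈ Δ}
  have hN : N.Infinite := by
    intro hfin
    refine hinf ((hfin.image Subtype.val).subset ?_)
    rintro s ⟨hs, hsf⟩
    refine ⟨⟨s, s * f⁻¹, hsf, ?_⟩, ⟨hs, hsf⟩, rfl⟩
    have : (s * f⁻¹)⁻¹ * s = f := by group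
    rwa [this]
  have : (cofinite ⊓ 𝓟 N : Filter (WW Δ P)).NeBot := hN.cofinite_inf_principal_neBot
  obtain ⟨p, hp⟩ : ∃ p : Ultrafilter (WW Δ P), (p : Filter (WW Δ P)) ≤ cofinite ⊓ 𝓟 N :=
    ⟨Ultrafilter.of _, Ultrafilter.of_le _⟩
  have hpc : (p : Filter (WW Δ P)) ≤ cofinite := hp.trans inf_le_left
  have hpN : N ∈ p := (hp.trans inf_le_right) (mem_principal_self N)
  refine ⟨P, ⟨1, h1W⟩, p, ?_⟩
  let _ := act Δ P
  have hact : ∀ (a : Δ) (x : WW Δ P), ((a • x : WW Δ P) : Γ) = (a : Γ) * (x : Γ) :=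
    fun _ _ => rfl
  refine { free := ?_, fin := ?_, le := ?_, inv := ?_, inv₀ := ?_, conn := ?_,
           lf := ?_, nonp := ?_, nb := ?_ }
  · intro a x hax
    have h2 := congrArg Subtype.val hax
    rw [hact] at h2
    exact Subtype.ext (mul_eq_right.1 h2)
  · refine ⟨{x | (x : Γ) ∈ P}, hPf.preimage Subtype.val_injective.injOn, ?_⟩
    rintro ⟨x, δ, hδ, hx⟩
    refine ⟨⟨δ, hδ⟩, ⟨δ⁻¹ * x, ⟨1, Δ.one_mem, by simpa using hx⟩⟩, hx, ?_⟩
    refine Subtype.ext ?_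
    rw [hact]
    exact mul_inv_cancel_left _ _
  · intro x y hxy
    exact hxy.1
  · intro a x y hxy
    exact cay_mul (a : Γ) hxy
  · intro a x y hxy
    refine ⟨cay_mul (a : Γ) hxy.1, ?_⟩
    obtain ⟨δ, h2, h3, h4⟩ := hxy.2
    refine ⟨(a : Γ) * δ, Δ.mul_mem a.2 h2, ?_, ?_⟩
    · have : ((a : Γ) * δ)⁻¹ * ((a : Γ) * (x : Γ)) = δ⁻¹ * x := by group
      rw [hact, this]; exact h3
    · have : ((a : Γ) * δ)⁻¹ * ((a : Γ) * (y : Γ)) = δ⁻¹ * y := by group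
      rw [hact, this]; exact h4
  · have : Nonempty (WW Δ P) := ⟨⟨1, h1W⟩⟩
    refine SimpleGraph.Connected.mk ?_
    intro x y
    exact (hall x).symm.trans (hall y)
  · intro x
    have hfin : (Set.image2 (fun u v => (x : Γ) * (u⁻¹ * v)) P P).Finite := hPf.image2 _ hPf
    refine (hfin.preimage (f := (Subtype.val : WW Δ P → Γ)) Subtype.val_injective.injOn).subset ?_
    intro y hy
    obtain ⟨δ, h2, h3, h4⟩ := hy.2
    refine ⟨_, h3, _, h4, ?_⟩
    change (x : Γ) * ((δ⁻¹ * (x : Γ))⁻¹ * (δ⁻¹ * (y : Γ))) = (y : Γ)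
    group
  · intro F hF hFp
    have h2 : Fᶜ ∈ p := hpc hF.compl_mem_cofinite
    exact (Ultrafilter.compl_mem_iff_notMem.1 h2) hFp
  · refine Filter.mem_of_superset hpN ?_
    intro s hs
    refine cay_adj.2 ⟨?_, Or.inl ?_⟩
    · intro h2
      have h3 : (1 : Γ) = (s : Γ) := h2
      exact h1 (h3 ▸ hs.1)
    · change (1 : Γ)⁻¹ * (s : Γ) ∈ S
      rw [inv_one, one_mul]; exact hs.1

/-- **Theorem.** Infinitely many generators in a coset of a finitely generated subgroup with bounded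
orders of the finite subgroups. -/
theorem sub (hI : InbStmt.{u}) (hR : RkbStmt.{u}) (hK : KndStmt.{u}) :
    ∀ (Γ : Type u) [Group Γ] (S : Set Γ), Subgroup.closure S = ⊤ → (1 : Γ) ∉ S →
      ∀ (Δ : Subgroup Γ), Δ.FG →
      (∃ N : ℕ, ∀ F : Subgroup Γ, F ≤ Δ → (F : Set Γ).Finite → Nat.card F ≤ N) →
      ∀ f : Γ, {s | s ∈ S ∧ s * f⁻¹ ∈ Δ}.Infinite →
      ∃ φ : ℕ → Set Γ,
        (∀ i, ((SimpleGraph.fromRel fun a b : Γ => a⁻¹ * b ∈ S).induce (φ i)).Connected) ∧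
        (∀ i j, i ≠ j → Disjoint (φ i) (φ j)) ∧
        ∀ i j, i ≠ j → ∃ a ∈ φ i, ∃ b ∈ φ j,
          (SimpleGraph.fromRel fun a b : Γ => a⁻¹ * b ∈ S).Adj a b := by
  intro Γ _ S hS h1 Δ hΔ hN f hinf
  obtain ⟨N, hN⟩ := hN
  have hΔG : Group.FG Δ := (Group.fg_iff_subgroup_fg Δ).2 hΔ
  obtain ⟨P, w, p, hst⟩ := setting_sub S hS h1 Δ hΔG f hinf
  let _ := act Δ P
  obtain ⟨T, hT⟩ := Group.fg_iff'.1 hΔG
  obtain ⟨F, -, hF⟩ := hT
  have hb : ∀ F : Subgroup Δ, (F : Set Δ).Finite → Nat.card F ≤ N := by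
    intro F hF
    have h2 := hN (F.map Δ.subtype) (Subgroup.map_subtype_le F) (by
      rw [Subgroup.coe_map]; exact hF.image _)
    rwa [Subgroup.card_map_of_injective (Subgroup.subtype_injective _)] at h2
  have hCon : Con Δ ((cay S).comap (Subtype.val : WW Δ P → Γ)) p := by
    by_contra hc
    have hD := hI (2 * N * F.card + 1) Δ (WW Δ P) _ _ w p hst hc
    let e : Fin F.card ≃ F := F.equivFin.symm
    have hcl : Subgroup.closure (Set.range fun i : Fin F.card => ((e i : F) : Δ)) = ⊤ := by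
      have hr : (Set.range fun i : Fin F.card => ((e i : F) : Δ)) = (F : Set Δ) := by
        ext x
        constructor
        · rintro ⟨i, rfl⟩
          exact (e i).2
        · intro hx
          exact ⟨e.symm ⟨x, hx⟩, by simp⟩
      rw [hr, hF]
    have := hR Δ F.card (2 * N * F.card + 1) N (fun i => ((e i : F) : Δ)) hcl hb hD
    omega
  obtain ⟨Z, hZ1, hZ2⟩ := hCon
  have hinj : Function.Injective fun a : Δ => a • w := by
    intro a b hab
    have h2 : (b⁻¹ * a) • w = w := by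
      have h3 : a • w = b • w := hab
      rw [mul_smul, h3, inv_smul_smul]
    have h4 := hst.free _ _ h2
    exact (inv_mul_eq_one.1 h4).symm
  obtain ⟨φ, h2, h3, h4⟩ := hK (WW Δ P) _ ((fun a : Δ => a • w) '' Z) (hZ1.image hinj.injOn) (by
    rintro _ ⟨a, ha, rfl⟩ _ ⟨b, hb, rfl⟩ c hc ⟨hx, hy⟩
    exact hZ2 a ha b hb c hc ⟨fact1 hst hc hx, fact1' hst hc hy⟩)
  refine ⟨fun i => Subtype.val '' (φ i), ?_, ?_, ?_⟩
  · intro i
    let h : ((cay S).comap (Subtype.val : WW Δ P → Γ)).induce (φ i) →g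
        (cay S).induce (Subtype.val '' (φ i)) :=
      { toFun := fun x => ⟨((x : WW Δ P) : Γ), (x : WW Δ P), x.2, rfl⟩
        map_rel' := fun {_ _} hxy => hxy }
    refine (h2 i).map h ?_
    rintro ⟨_, x, hx, rfl⟩
    exact ⟨⟨x, hx⟩, rfl⟩
  · intro i j hij
    exact Set.disjoint_image_of_injective Subtype.val_injective (h3 i j hij)
  · intro i j hij
    obtain ⟨a, ha, b, hb, hab⟩ := h4 i j hij
    exact ⟨_, ⟨a, ha, rfl⟩, _, ⟨b, hb, rfl⟩, hab⟩

end Pool.Agent.Helper76.BT
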